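import Pool.Agent.helper38.OP.Spec

set_option autoImplicit false

namespace Pool.Agent.OP

open Finset Real Pool.Agent.AT Pool.Agent.helper85.FC Pool.Agent.OM

theorem NHR_BS (σ : ℤ) (a b m : ℕ) (v : ℤ) : 0 ≤ BS σ a b m v ∧ BS σ a b m v ≤ 1 := by
  unfold BS
  split_ifs <;> norm_num

theorem NHR_PQ (M : ℕ) (T : ℕ → ℕ) (B : ℕ → ℤ → ℝ) (hB : ∀ m v, 0 ≤ B m v ∧ B m v ≤ 1) (m : ℕ) (v : ℤ) :
    0 ≤ PQ M T B m v ∧ PQ M T B m v ≤ 1 := by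
  unfold PQ sm
  constructor
  · exact div_nonneg (Finset.sum_nonneg fun τ _ => (hB _ _).1) (Nat.cast_nonneg _)
  · refine div_le_one_of_le₀ ?_ (Nat.cast_nonneg _)
    calc ∑ τ ∈ range (T m), B m (v + M * τ) ≤ ∑ _τ ∈ range (T m), (1 : ℝ) :=
          Finset.sum_le_sum fun τ _ => (hB _ _).2
      _ = T m := by simp

theorem NHR_kr (a b : ℕ) (w : ℕ → ℤ → ℝ) (hw : ∀ m v, 0 ≤ w m v ∧ w m v ≤ 1) (p p' : ℕ × ℕ) :
    0 ≤ kr a b w p p' ∧ kr a b w p p' ≤ 1 := by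
  unfold kr
  split_ifs
  · exact hw _ _
  · exact hw _ _
  · norm_num

theorem NHR_MM (a b L : ℕ) (ha : 1 ≤ a) (hab : a < b) : 1 ≤ b ^ L * MM1 a b L := by
  unfold MM1
  have h1 : 0 < b := by omega
  have h2 : ∀ k ∈ Ico 1 L, 0 < ((a : ℤ) ^ k - (b : ℤ) ^ k).natAbs := by
    intro k hk
    rw [Finset.mem_Ico] at hk
    have h3 : a ^ k < b ^ k := Nat.pow_lt_pow_left hab (by omega)
    have h4 : (a : ℤ) ^ k < (b : ℤ) ^ k := by exact_mod_cast h3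
    omega
  have h5 : 0 < ∏ k ∈ Ico 1 L, ((a : ℤ) ^ k - (b : ℤ) ^ k).natAbs := Finset.prod_pos h2
  have h6 : 0 < b ^ L * (a ^ L * ∏ k ∈ Ico 1 L, ((a : ℤ) ^ k - (b : ℤ) ^ k).natAbs) := by positivity
  exact h6

/-- the parameters -/
theorem NHR_L (ε : ℝ) (hε : 0 < ε) (hε1 : ε ≤ 1) : ∃ L : ℕ, 1 ≤ L ∧ 32 ≤ (ε / 2) ^ 2 * L ∧
    1 / (L : ℝ) + 252 / √(L : ℝ) ≤ ε ^ 7 / 2 ^ 23 := by
  set s : ℝ := 253 * 2 ^ 23 / ε ^ 7 with hs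
  have he7 : 0 < ε ^ 7 := by positivity
  have he71 : ε ^ 7 ≤ ε := by
    calc ε ^ 7 ≤ ε ^ 1 := pow_le_pow_of_le_one hε.le hε1 (by norm_num)
      _ = ε := pow_one ε
  have hs0 : 0 < s := by positivity
  have hs1 : 253 * 2 ^ 23 / ε ≤ s := by
    rw [hs]
    exact div_le_div_of_nonneg_left (by norm_num) he7 he71
  have hL : s ^ 2 ≤ (⌈s ^ 2⌉₊ : ℝ) := Nat.le_ceil _
  have hLpos : (0 : ℝ) < (⌈s ^ 2⌉₊ : ℝ) := lt_of_lt_of_le (by positivity) hL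
  have hL1 : 1 ≤ ⌈s ^ 2⌉₊ := Nat.one_le_iff_ne_zero.2 (by
    intro h
    rw [h] at hLpos
    norm_num at hLpos)
  have hL1' : (1 : ℝ) ≤ (⌈s ^ 2⌉₊ : ℝ) := by exact_mod_cast hL1
  have hsq : s ≤ √(⌈s ^ 2⌉₊ : ℝ) := Real.le_sqrt_of_sq_le hL
  refine ⟨⌈s ^ 2⌉₊, hL1, ?_, ?_⟩
  · have h1 : (253 * 2 ^ 23 / ε) ^ 2 ≤ s ^ 2 := pow_le_pow_left₀ (by positivity) hs1 2
    have h2 : (ε / 2) ^ 2 * (253 * 2 ^ 23 / ε) ^ 2 = (253 * 2 ^ 22) ^ 2 := by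
      field_simp
    calc (32 : ℝ) ≤ (253 * 2 ^ 22) ^ 2 := by norm_num
      _ = (ε / 2) ^ 2 * (253 * 2 ^ 23 / ε) ^ 2 := h2.symm
      _ ≤ (ε / 2) ^ 2 * s ^ 2 := mul_le_mul_of_nonneg_left h1 (by positivity)
      _ ≤ _ := mul_le_mul_of_nonneg_left hL (by positivity)
  · have hr : 0 < √(⌈s ^ 2⌉₊ : ℝ) := Real.sqrt_pos.2 hLpos
    have h1 : 1 / (⌈s ^ 2⌉₊ : ℝ) ≤ 1 / √(⌈s ^ 2⌉₊ : ℝ) := by
      refine one_div_le_one_div_of_le hr ?_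
      rw [Real.sqrt_le_left (by positivity)]
      nlinarith
    have h2 : 253 / √(⌈s ^ 2⌉₊ : ℝ) ≤ 253 / s := div_le_div_of_nonneg_left (by norm_num) hs0 hsq
    have h3 : 253 / s = ε ^ 7 / 2 ^ 23 := by
      rw [hs]
      field_simp
    have h4 : 1 / √(⌈s ^ 2⌉₊ : ℝ) + 252 / √(⌈s ^ 2⌉₊ : ℝ) = 253 / √(⌈s ^ 2⌉₊ : ℝ) := by
      ring
    linarith

theorem NHR_pow (a b κ : ℝ) (ha : 0 ≤ a) (hb : 0 ≤ b) (hκ : 0 < κ) (hκ1 : κ ≤ 1) (h : a ≤ κ ^ 2 * b) (m : ℕ) (hm : 1 ≤ m) :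
    a ^ m ≤ κ ^ 2 * b ^ m := by
  have h1 : a ^ m ≤ (κ ^ 2 * b) ^ m := pow_le_pow_left₀ ha h m
  have h2 : (κ ^ 2 * b) ^ m = (κ ^ 2) ^ m * b ^ m := mul_pow _ _ _
  have h3 : (κ ^ 2) ^ m ≤ κ ^ 2 := by
    have h4 : κ ^ 2 ≤ 1 := pow_le_one₀ hκ.le hκ1
    calc (κ ^ 2) ^ m ≤ (κ ^ 2) ^ 1 := pow_le_pow_of_le_one (by positivity) h4 hm
      _ = κ ^ 2 := pow_one _
  rw [h2] at h1
  exact h1.trans (mul_le_mul_of_nonneg_right h3 (by positivity))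

/-- the lengths of the progressions -/
theorem NHR_T (a b L N : ℕ) (κ : ℝ) (ha : 1 ≤ a) (hb : 1 ≤ b) (hκ : 0 < κ) (hκ1 : κ ≤ 1) (hab : (a : ℝ) ≤ κ ^ 2 * b) (hN : 2 * b ^ L ≤ N) :
    ∀ m ∈ Ico 1 L, 1 ≤ ⌊(a : ℝ) ^ m * N / κ⌋₊ ∧ κ * (⌊(a : ℝ) ^ m * N / κ⌋₊ : ℝ) ≤ (a : ℝ) ^ m * N ∧
      (a : ℝ) ^ m * N ≤ 2 * κ * (⌊(a : ℝ) ^ m * N / κ⌋₊ : ℝ) ∧ (b : ℝ) ^ m ≤ κ * (⌊(a : ℝ) ^ m * N / κ⌋₊ : ℝ) ∧
      (⌊(a : ℝ) ^ m * N / κ⌋₊ : ℝ) ≤ κ * ((b : ℝ) ^ m * N) := by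
  intro m hm
  rw [Finset.mem_Ico] at hm
  set x : ℝ := (a : ℝ) ^ m * N / κ with hx
  have ha' : (1 : ℝ) ≤ a := by exact_mod_cast ha
  have hb' : (1 : ℝ) ≤ b := by exact_mod_cast hb
  have ham : (1 : ℝ) ≤ (a : ℝ) ^ m := one_le_pow₀ ha'
  have hbL : (b : ℝ) ^ m ≤ (b : ℝ) ^ L := pow_le_pow_right₀ hb' (by omega)
  have hbm : (1 : ℝ) ≤ (b : ℝ) ^ m := one_le_pow₀ hb'
  have hN' : 2 * (b : ℝ) ^ L ≤ N := by exact_mod_cast hN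
  have hN2 : (2 : ℝ) ≤ N := by linarith
  have hxκ : κ * x = (a : ℝ) ^ m * N := by
    rw [hx]
    field_simp
  have hx0 : 0 ≤ x := by positivity
  have haN : (N : ℝ) ≤ (a : ℝ) ^ m * N := by nlinarith
  have hx2 : 2 ≤ x := by
    have h1 : (a : ℝ) ^ m * N ≤ x := by
      rw [← hxκ]
      nlinarith
    linarith
  have hf1 : (⌊x⌋₊ : ℝ) ≤ x := Nat.floor_le hx0
  have hf2 : x < ⌊x⌋₊ + 1 := Nat.lt_floor_add_one x
  have hf3 : x ≤ 2 * (⌊x⌋₊ : ℝ) := by linarith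
  have hf4 : 1 ≤ ⌊x⌋₊ := Nat.le_floor (by norm_num; linarith)
  have h3 : (a : ℝ) ^ m * N ≤ 2 * κ * (⌊x⌋₊ : ℝ) := by
    rw [← hxκ]
    nlinarith
  refine ⟨hf4, ?_, h3, ?_, ?_⟩
  · rw [← hxκ]
    exact mul_le_mul_of_nonneg_left hf1 hκ.le
  · nlinarith
  · have h5 := NHR_pow a b κ (by linarith) (by linarith) hκ hκ1 hab m hm.1
    have h6 : κ * x ≤ κ * (κ * ((b : ℝ) ^ m * N)) := by
      rw [hxκ]
      calc (a : ℝ) ^ m * N ≤ κ ^ 2 * (b : ℝ) ^ m * N := mul_le_mul_of_nonneg_right h5 (by linarith)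
        _ = κ * (κ * ((b : ℝ) ^ m * N)) := by ring
    have h7 : x ≤ κ * ((b : ℝ) ^ m * N) := le_of_mul_le_mul_left h6 hκ
    linarith

theorem NHR_le1 (hK4S : K4S_stmt) (hCU2 : CU2_stmt) (hCNT : OM.CNT_stmt) (hLOW : LOW_stmt) (hAVG : AVG_stmt)
    (hK4L : K4L_stmt) (hQP : QPc) (ε : ℝ) (hε : 0 < ε) (hε1 : ε ≤ 1) :
    ∃ (L : ℕ) (lam : ℝ), 0 < lam ∧ ∀ σ : ℤ, σ = 1 ∨ σ = -1 → ∀ a b : ℕ, 1 ≤ a → Nat.Coprime a b →
    (a : ℝ) ≤ lam * b → ∃ N₀ : ℕ, ∀ N : ℕ, N₀ ≤ N → ∃ m ∈ Ico 1 L, ∃ r < b ^ L * MM1 a b L,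
      ∑ v ∈ range (b ^ m * (b ^ L * MM1 a b L * N)) with v % (b ^ L * MM1 a b L) = r, BS σ a b m v < ε * ((b : ℝ) ^ m * N) := by
  obtain ⟨C, δ, hC, hδ, hS⟩ := hK4S hQP
  obtain ⟨L, hL1, hL32, hLs⟩ := NHR_L ε hε hε1
  have he7 : 0 < ε ^ 7 := by positivity
  have he71 : ε ^ 7 ≤ ε := by
    calc ε ^ 7 ≤ ε ^ 1 := pow_le_pow_of_le_one hε.le hε1 (by norm_num)
      _ = ε := pow_one ε
  set κ : ℝ := ε ^ 7 / 2 ^ 26 with hκdef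
  have hκ : 0 < κ := by positivity
  have hκ1 : κ ≤ 1 := by
    rw [hκdef, div_le_one (by norm_num)]
    linarith
  have hκ5 : ε / 2 ≤ ε - 5 * κ := by
    rw [hκdef]
    linarith
  have hLr : (1 : ℝ) ≤ L := by exact_mod_cast hL1
  have hsL : 1 ≤ √(L : ℝ) := by
    rw [Real.one_le_sqrt]
    exact hLr
  have hsL0 : 0 < √(L : ℝ) := by linarith
  refine ⟨L, κ ^ 2 / (64 * √(L : ℝ)), by positivity, ?_⟩
  intro σ hσ a b ha hcop hab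
  have ha' : (1 : ℝ) ≤ a := by exact_mod_cast ha
  have hb0 : (0 : ℝ) < b := by
    by_contra h
    have h1 : (b : ℝ) ≤ 0 := not_lt.1 h
    have h2 : κ ^ 2 / (64 * √(L : ℝ)) * b ≤ 0 := mul_nonpos_of_nonneg_of_nonpos (by positivity) h1
    linarith
  have hb : 1 ≤ b := by
    have : 0 < b := by exact_mod_cast hb0
    omega
  have h64 : 64 * a * √(L : ℝ) ≤ κ ^ 2 * b := by
    have h1 : (64 * √(L : ℝ)) * a ≤ (64 * √(L : ℝ)) * (κ ^ 2 / (64 * √(L : ℝ)) * b) :=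
      mul_le_mul_of_nonneg_left hab (by positivity)
    have h2 : (64 * √(L : ℝ)) * (κ ^ 2 / (64 * √(L : ℝ)) * b) = κ ^ 2 * b := by
      field_simp
    rw [h2] at h1
    linarith
  have haκ : (a : ℝ) ≤ κ ^ 2 * b := by
    have : (a : ℝ) ≤ 64 * a * √(L : ℝ) := by nlinarith
    linarith
  have hκsq : κ ^ 2 ≤ 1 := pow_le_one₀ hκ.le hκ1
  have hab1 : (a : ℝ) ≤ b := by nlinarith
  have hablt : a < b := by
    have h1 : (a : ℝ) < b := by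
      have h2 : 64 * (a : ℝ) ≤ b := by
        have : 64 * (a : ℝ) ≤ 64 * a * √(L : ℝ) := by nlinarith
        nlinarith
      linarith
    exact_mod_cast h1
  set M : ℕ := b ^ L * MM1 a b L with hM
  have hM1 : 1 ≤ M := NHR_MM a b L ha hablt
  -- large N
  have hlim : Filter.Tendsto (fun x : ℝ => C * x ^ (-δ)) Filter.atTop (nhds (C * 0)) :=
    (tendsto_rpow_neg_atTop hδ).const_mul C
  rw [mul_zero] at hlim
  have hev := hlim.eventually (gt_mem_nhds (show (0 : ℝ) < ε ^ 7 / 2 ^ 22 by positivity))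
  obtain ⟨X0, hX0⟩ := Filter.eventually_atTop.1 hev
  refine ⟨max ⌈X0⌉₊ (2 * b ^ L), fun N hN => ?_⟩
  have hN1 : X0 ≤ N := (Nat.le_ceil X0).trans (by exact_mod_cast (le_max_left _ _).trans hN)
  have hN2 : 2 * b ^ L ≤ N := (le_max_right _ _).trans hN
  have hbL1 : 1 ≤ b ^ L := Nat.one_le_pow _ _ (by omega)
  have hN3 : 1 ≤ N := by omega
  have hT := NHR_T a b L N κ ha hb hκ hκ1 haκ hN2
  set T : ℕ → ℕ := fun m => ⌊(a : ℝ) ^ m * N / κ⌋₊ with hTdef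
  by_contra hcon
  push Not at hcon
  have hB := NHR_BS σ a b
  have hMr : (1 : ℝ) ≤ M := by exact_mod_cast hM1
  have hNr : (1 : ℝ) ≤ N := by exact_mod_cast hN3
  have hMcast : (M : ℝ) = (b : ℝ) ^ L * (MM1 a b L : ℝ) := by
    rw [hM]
    push_cast
    ring
  have hYc : ((M * N : ℕ) : ℝ) = (M : ℝ) * N := by push_cast; ring
  set n : ℝ := (L : ℝ) * (M * N) with hn
  have hn1 : (N : ℝ) ≤ n := by
    have h1 : (N : ℝ) ≤ (M : ℝ) * N := by nlinarith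
    have h2 : (M : ℝ) * N ≤ n := by
      rw [hn]
      nlinarith
    linarith
  have hn0 : 0 < n := by linarith
  -- K4L
  have hlow := hLOW a b L (M * N) M κ hM1 hκ T (fun m hm => by
    obtain ⟨t1, t2, t3, t4, t5⟩ := hT m hm
    refine ⟨t1, ?_⟩
    rw [hYc]
    calc (a : ℝ) ^ m * ((M : ℝ) * N) = M * ((a : ℝ) ^ m * N) := by ring
      _ ≤ M * (2 * κ * (T m : ℝ)) := mul_le_mul_of_nonneg_left t3 (by linarith)
      _ = 2 * κ * (M * T m) := by ring) (BS σ a b) hB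
  have havg := hAVG a b L M N κ ε ha hablt.le hM1 hκ hκ1 hε hε1 T (fun m hm => by
    obtain ⟨t1, t2, t3, t4, t5⟩ := hT m hm
    exact ⟨t1, t4, t5⟩) (BS σ a b) hB (fun m hm r hr => by
      have := hcon m hm r hr
      exact this)
  have hk4 := hK4L L M N (ε / 2) hM1 hN3 (by positivity) (by linarith) hL32 (kr a b (PQ M T (BS σ a b)))
    (ff a b M κ T (BS σ a b)) (fun p p' => (NHR_kr a b _ (NHR_PQ M T _ hB) p p').1) hlow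
    (fun p j y => by
      unfold ff
      simp only [Nat.mod_mod]) (fun i hi j hj ρ hρ y hy => by
      have h1 := havg i hi j hj ρ hρ y hy
      have h2 : ε / 2 * (N : ℝ) ≤ (ε - 5 * κ) * N := mul_le_mul_of_nonneg_right hκ5 (by linarith)
      linarith)
  -- CNT
  have hcu := hCU2 a b L κ ha hL1 hκ hκ1 h64 (M * N) (by
    rw [hM]
    calc MM1 a b L * b ^ L = b ^ L * MM1 a b L * 1 := by ring
      _ ≤ b ^ L * MM1 a b L * N := Nat.mul_le_mul_left _ hN3) T (fun m hm => by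
    obtain ⟨t1, t2, t3, t4, t5⟩ := hT m hm
    refine ⟨t1, ?_⟩
    rw [hYc, ← hMcast]
    calc κ * ((M : ℝ) * T m) = M * (κ * T m) := by ring
      _ ≤ M * ((a : ℝ) ^ m * N) := mul_le_mul_of_nonneg_left t2 (by linarith)
      _ = (a : ℝ) ^ m * ((M : ℝ) * N) := by ring) (BS σ a b) hB
  have hcnt := @hCNT (ℕ × ℕ) (VV L (M * N)) (kr a b (BS σ a b)) (kr a b (PQ M T (BS σ a b)))
    ((2 * κ + 42 / √(L : ℝ)) * ((L : ℝ) * ((M * N : ℕ) : ℝ)) ^ 2) (NHR_kr a b _ hB) (NHR_kr a b _ (NHR_PQ M T _ hB)) hcu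
  have hs := hS σ hσ a b L (M * N) ha hb hcop (by omega) hL1 (Nat.mul_pos (by omega) (by omega))
  have hcard : (#(VV L (M * N)) : ℝ) = n := by
    unfold VV
    rw [Finset.card_product, Finset.card_range, Finset.card_range, hn]
    push_cast
    ring
  rw [hYc] at hcnt hs
  rw [hcard] at hcnt
  rw [← hn] at hcnt hs hk4
  have hfin := hX0 n (hN1.trans hn1)
  have hn4 : 0 < n ^ 4 := by positivity
  have e1 : C * n ^ 4 * n ^ (-δ) < n ^ 4 * (ε ^ 7 / 2 ^ 22) := by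
    calc C * n ^ 4 * n ^ (-δ) = n ^ 4 * (C * n ^ (-δ)) := by ring
      _ < _ := mul_lt_mul_of_pos_left hfin hn4
  have e2 : 6 * ((2 * κ + 42 / √(L : ℝ)) * n ^ 2) * n ^ 2 = n ^ 4 * (12 * κ + 252 / √(L : ℝ)) := by ring
  have e3 : ((ε / 2) ^ 7 / 2 ^ 13 - 1 / (L : ℝ)) * n ^ 4 = n ^ 4 * (ε ^ 7 / 2 ^ 20 - 1 / (L : ℝ)) := by ring
  rw [e2] at hcnt
  rw [e3] at hk4
  have e4 : n ^ 4 * (ε ^ 7 / 2 ^ 20 - 1 / (L : ℝ)) < n ^ 4 * (ε ^ 7 / 2 ^ 22 + (12 * κ + 252 / √(L : ℝ))) := by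
    rw [mul_add]
    linarith
  have e5 := lt_of_mul_lt_mul_left e4 hn4.le
  rw [hκdef] at e5
  linarith

theorem NHR (hK4S : K4S_stmt) (hCU2 : CU2_stmt) (hCNT : OM.CNT_stmt) (hLOW : LOW_stmt) (hAVG : AVG_stmt) (hK4L : K4L_stmt) : NHR_stmt := by
  intro hQP ε hε
  obtain ⟨L, lam, hlam, h⟩ := NHR_le1 hK4S hCU2 hCNT hLOW hAVG hK4L hQP (min ε 1) (lt_min hε one_pos) (min_le_right _ _)
  refine ⟨L, lam, hlam, fun σ hσ a b ha hcop hab => ?_⟩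
  obtain ⟨N₀, hN₀⟩ := h σ hσ a b ha hcop hab
  refine ⟨N₀, fun N hN => ?_⟩
  obtain ⟨m, hm, r, hr, hlt⟩ := hN₀ N hN
  refine ⟨m, hm, r, hr, hlt.trans_le ?_⟩
  exact mul_le_mul_of_nonneg_right (min_le_left _ _) (by positivity)

end Pool.Agent.OP
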